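import Pool.Agent.Q231.Line.NP

/-!
# Single-vehicle scheduling on a line with release and handling times is NP-hard

Reduction from SUBSET SUM (so this is weak NP-hardness: the numbers are written in binary).

In reversed time the release times become deadlines.  For every item `i` of size `w i` there is a
job at distance `M i` to the left and a job at distance `M i + w i` to the right of a centre, with
handling times `2 M i` and `2 (M i + w i)`, where the `M i` grow geometrically, and `m + 1` anchor
jobs with huge handling times and tight deadlines at the centre.  A first sweep over the whole path,
forced by a job at the right end, can process one job of every pair, and only one; the other job of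
the pair has to be processed on an extra trip from the centre.  If it is the left one then `2 w i` is
charged to the deadline of the first anchor, otherwise to the final deadline, and the slacks of
these two deadlines are `2 t` and `2 (w 0 + ... + w (m-1) - t)`.
-/

set_option autoImplicit false

namespace Pool.Agent.Results.MP_6e49ee_lc.LineSchedulingNPHard

open Pool.Agent.NPC Pool.Agent.Q231.Line

/-- **The single-vehicle scheduling problem on a path with release times and positive handling times
is NP-hard.** First part: the decision problem restricted to the instances with positive handling
times and symmetric travel times is NP-hard. Second part: the same, written out. Last part: a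
polynomial time algorithm for the decision problem would give `P = NP`. -/
theorem result :
    NPHardP (fun I : Inst => Positive I ∧ LineScheduling I) ∧
    (∀ L : Set (List Bool), InNP L → ∃ f : List Bool → Inst, PolyTime (fun x => bits (f x)) ∧
      (∀ x, Positive (f x)) ∧ ∀ x, x ∈ L ↔ LineScheduling (f x)) ∧
    (InPP LineScheduling → ∀ L : Set (List Bool), InNP L → InP L) := by
  have h2 : HardPr (fun _ => True) (fun I : Inst => Positive I ∧ LineScheduling I) := by
    intro L hL
    obtain ⟨f, hf, h1, h2⟩ := hardPr L hL
    refine ⟨f, hf, fun _ => trivial, fun x => ?_⟩
    rw [h2 x]
    exact ⟨fun h => ⟨h1 x, h⟩, fun h => h.2⟩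
  refine ⟨h2.toHardI.toNPHardP, fun L hL => ?_, fun h => ?_⟩
  · obtain ⟨f, hf, h1, h2⟩ := hardPr L hL
    exact ⟨f, PC.toPolyTime hf, h1, h2⟩
  · exact NPHard.collapse hardPr.toHardI.toNPHardP h

end Pool.Agent.Results.MP_6e49ee_lc.LineSchedulingNPHard
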